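import Mathlib

/-!
# Polynomials with few critical values and bounded fixed-point multipliers

For `n, r ≥ 1` let `p(z) = ∑_{j ≤ n} C(n,j) (-1)^j z^(r j + 1) / (r j + 1)`, the primitive of
`(1 - z^r)^n` vanishing at `0`.  It has degree `r n + 1`, and its critical points are the `r`-th
roots of unity, so it has at most `r` critical values.  A fixed point `z ≠ 0` gives a nonzero root
`y = z^r` of `∑_{1 ≤ j ≤ n} C(n,j) (-y)^j / (r j + 1)`, hence `|y| ≤ n 2^n`, and the multiplier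
`(1 - y)^n` is bounded by `(1 + n 2^n)^n`, independently of `r`.
-/

open Polynomial

namespace Pool.Agent.Results.MP_b61545_an.BoundedMultipliers

/-- `cv p`: the number of critical values of `p`, i.e. the cardinality of the image under `p`
of the zero set of the derivative of `p`. -/
noncomputable def cv (p : ℂ[X]) : ℕ :=
  Set.ncard ((fun z : ℂ => p.eval z) '' {z : ℂ | p.derivative.eval z = 0})

/-- `maxMult p`: the supremum (for `deg p ≥ 2` a maximum, over a finite nonempty set) of the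
moduli `|p'(ξ)|` over the fixed points `ξ` of `p`. -/
noncomputable def maxMult (p : ℂ[X]) : ℝ :=
  sSup ((fun ξ : ℂ => ‖p.derivative.eval ξ‖) '' {ξ : ℂ | p.eval ξ = ξ})

/-- The primitive of `(1 - X^r)^n` vanishing at `0`. -/
noncomputable def fam (n r : ℕ) : ℂ[X] :=
  ∑ j ∈ Finset.range (n + 1),
    Polynomial.C (((n.choose j : ℕ) : ℂ) * (-1) ^ j / ((r * j + 1 : ℕ) : ℂ)) * X ^ (r * j + 1)

lemma fam_derivative (n r : ℕ) : (fam n r).derivative = (1 - X ^ r) ^ n := by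
  have h : ((1 : ℂ[X]) - X ^ r) ^ n
      = ∑ j ∈ Finset.range (n + 1), (- X ^ r) ^ j * 1 ^ (n - j) * ((n.choose j : ℕ) : ℂ[X]) := by
    rw [← add_pow]; congr 1; ring
  rw [h, fam, Polynomial.derivative_sum]
  refine Finset.sum_congr rfl fun j _ => ?_
  rw [Polynomial.derivative_C_mul_X_pow]
  have h1 : (((r * j + 1 : ℕ)) : ℂ) ≠ 0 := Nat.cast_ne_zero.2 (Nat.succ_ne_zero _)
  rw [div_mul_cancel₀ _ h1, Nat.add_sub_cancel, neg_pow, pow_mul]
  simp only [map_mul, map_pow, map_neg, map_one, one_pow, mul_one]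
  rw [Polynomial.C_eq_natCast]
  ring

lemma fam_eval (n r : ℕ) (z : ℂ) : (fam n r).eval z
    = z + ∑ j ∈ Finset.Icc 1 n,
        (((n.choose j : ℕ) : ℂ) * (-1) ^ j / ((r * j + 1 : ℕ) : ℂ)) * (z ^ (r * j + 1)) := by
  rw [fam, Polynomial.eval_finsetSum]
  simp only [eval_mul, eval_C, eval_pow, eval_X]
  rw [Finset.sum_range_succ', add_comm]
  congr 1
  · simp
  · rw [Finset.range_eq_Ico, Finset.sum_Ico_add' (fun j => (((n.choose j : ℕ) : ℂ) * (-1) ^ j
      / ((r * j + 1 : ℕ) : ℂ)) * (z ^ (r * j + 1))) 0 n 1]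
    rfl

lemma fam_natDegree {n r : ℕ} (hr : 1 ≤ r) : (fam n r).natDegree = r * n + 1 := by
  refine Polynomial.natDegree_eq_of_le_of_coeff_ne_zero ?_ ?_
  · refine Polynomial.natDegree_sum_le_of_forall_le _ _ fun j hj => ?_
    refine (Polynomial.natDegree_C_mul_X_pow_le _ _).trans ?_
    have : j ≤ n := Nat.lt_succ_iff.1 (Finset.mem_range.1 hj)
    gcongr
  · rw [fam, Polynomial.finsetSum_coeff, Finset.sum_eq_single n]
    · rw [Polynomial.coeff_C_mul_X_pow, if_pos rfl]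
      have h1 : (((r * n + 1 : ℕ)) : ℂ) ≠ 0 := Nat.cast_ne_zero.2 (Nat.succ_ne_zero _)
      simp only [Nat.choose_self, Nat.cast_one, one_mul]
      exact div_ne_zero (pow_ne_zero _ (by norm_num)) h1
    · intro j _ hjn
      rw [Polynomial.coeff_C_mul_X_pow, if_neg]
      intro h
      have h2 : r * n = r * j := Nat.succ_injective h
      exact hjn (Nat.eq_of_mul_eq_mul_left (by omega) h2).symm
    · intro h
      exact absurd (Finset.mem_range.2 (Nat.lt_succ_self n)) h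

lemma cv_fam_le {n r : ℕ} (hr : 1 ≤ r) : cv (fam n r) ≤ r := by
  have hfin : ({z : ℂ | (fam n r).derivative.eval z = 0}) ⊆ ↑(nthRoots r (1 : ℂ)).toFinset := by
    intro z hz
    rw [Set.mem_ofPred_eq, fam_derivative] at hz
    simp only [eval_pow, eval_sub, eval_one, eval_X] at hz
    have h1 : (1 : ℂ) - z ^ r = 0 := eq_zero_of_pow_eq_zero hz
    rw [Finset.mem_coe, Multiset.mem_toFinset, mem_nthRoots (by omega)]
    exact (sub_eq_zero.1 h1).symm
  have hfin' := (Finset.finite_toSet (nthRoots r (1 : ℂ)).toFinset).subset hfin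
  calc cv (fam n r) ≤ Set.ncard {z : ℂ | (fam n r).derivative.eval z = 0} :=
        Set.ncard_image_le hfin'
    _ ≤ Set.ncard (↑(nthRoots r (1 : ℂ)).toFinset : Set ℂ) :=
        Set.ncard_le_ncard hfin (Finset.finite_toSet _)
    _ = (nthRoots r (1 : ℂ)).toFinset.card := Set.ncard_coe_finset _
    _ ≤ Multiset.card (nthRoots r (1 : ℂ)) := Multiset.toFinset_card_le _
    _ ≤ r := card_nthRoots r 1

/-- Cauchy-type bound for the root `y = z^r`. -/
lemma root_bound {n r : ℕ} (hn : 1 ≤ n) {y : ℂ}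
    (h : ∑ j ∈ Finset.Icc 1 n,
        (((n.choose j : ℕ) : ℂ) * (-1) ^ j / ((r * j + 1 : ℕ) : ℂ)) * y ^ j = 0) :
    ‖y‖ ≤ n * 2 ^ n := by
  by_contra hcon
  push Not at hcon
  have h2n : (1 : ℝ) ≤ n * 2 ^ n := by
    have h1 : (1 : ℝ) ≤ n := by exact_mod_cast hn
    have h2 : (1 : ℝ) ≤ 2 ^ n := one_le_pow₀ (by norm_num)
    nlinarith
  have hy1 : 1 ≤ ‖y‖ := h2n.trans hcon.le
  have hy0 : 0 < ‖y‖ := by linarith
  -- isolate the top term
  have hsplit : Finset.Icc 1 n = insert n (Finset.Icc 1 (n - 1)) := by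
    ext j; simp only [Finset.mem_Icc, Finset.mem_insert]; omega
  rw [hsplit, Finset.sum_insert (by simp only [Finset.mem_Icc]; omega)] at h
  have h3 : ‖(((n.choose n : ℕ) : ℂ) * (-1) ^ n / ((r * n + 1 : ℕ) : ℂ)) * y ^ n‖
      ≤ ∑ j ∈ Finset.Icc 1 (n - 1),
        ‖(((n.choose j : ℕ) : ℂ) * (-1) ^ j / ((r * j + 1 : ℕ) : ℂ)) * y ^ j‖ := by
    rw [eq_neg_of_add_eq_zero_left h, norm_neg]
    exact norm_sum_le _ _
  have hterm : ∀ j : ℕ, ‖(((n.choose j : ℕ) : ℂ) * (-1) ^ j / ((r * j + 1 : ℕ) : ℂ)) * y ^ j‖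
      = (n.choose j : ℝ) / (r * j + 1) * ‖y‖ ^ j := by
    intro j
    rw [norm_mul, norm_div, norm_mul, norm_pow, norm_pow, norm_neg, norm_one, one_pow, mul_one,
      Complex.norm_natCast, Complex.norm_natCast]
    push_cast; ring
  simp only [hterm] at h3
  rw [Nat.choose_self, Nat.cast_one] at h3
  have hD : (0 : ℝ) < r * n + 1 := by positivity
  have h4 : ∀ j ∈ Finset.Icc 1 (n - 1), (n.choose j : ℝ) / (r * j + 1) * ‖y‖ ^ j
      ≤ (n.choose j : ℝ) * (n / (r * n + 1) * ‖y‖ ^ (n - 1)) := by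
    intro j hj
    rw [Finset.mem_Icc] at hj
    have hj1 : (1 : ℝ) ≤ j := by exact_mod_cast hj.1
    have hpow : ‖y‖ ^ j ≤ ‖y‖ ^ (n - 1) := pow_le_pow_right₀ hy1 hj.2
    have hfrac : 1 / ((r : ℝ) * j + 1) ≤ n / (r * n + 1) := by
      rw [div_le_div_iff₀ (by positivity) hD]
      have hn1 : (1 : ℝ) ≤ n := by exact_mod_cast hn
      have hr0 : (0 : ℝ) ≤ r := Nat.cast_nonneg r
      have hrn : 0 ≤ (r : ℝ) * n := by positivity
      nlinarith
    calc (n.choose j : ℝ) / (r * j + 1) * ‖y‖ ^ j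
        = (n.choose j : ℝ) * (1 / (r * j + 1) * ‖y‖ ^ j) := by ring
      _ ≤ (n.choose j : ℝ) * (n / (r * n + 1) * ‖y‖ ^ (n - 1)) := by gcongr
  have h5 := h3.trans (Finset.sum_le_sum h4)
  rw [← Finset.sum_mul] at h5
  have h6 : ∑ j ∈ Finset.Icc 1 (n - 1), (n.choose j : ℝ) ≤ 2 ^ n := by
    have : (∑ j ∈ Finset.range (n + 1), (n.choose j : ℝ)) = 2 ^ n := by
      exact_mod_cast Nat.sum_range_choose n
    rw [← this]
    refine Finset.sum_le_sum_of_subset_of_nonneg ?_ fun _ _ _ => Nat.cast_nonneg _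
    intro j hj
    rw [Finset.mem_Icc] at hj
    rw [Finset.mem_range]; omega
  have h7 : 1 / ((r : ℝ) * n + 1) * ‖y‖ ^ n
      ≤ 2 ^ n * (n / (r * n + 1) * ‖y‖ ^ (n - 1)) :=
    h5.trans (by gcongr)
  have h8 : ‖y‖ ^ n = ‖y‖ * ‖y‖ ^ (n - 1) := by
    rw [← pow_succ', Nat.sub_add_cancel hn]
  rw [h8] at h7
  have h9 : 0 < ‖y‖ ^ (n - 1) / (r * n + 1) := by positivity
  have h10 : ‖y‖ * (‖y‖ ^ (n - 1) / (r * n + 1))
      ≤ (n * 2 ^ n) * (‖y‖ ^ (n - 1) / (r * n + 1)) := by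
    calc _ = 1 / ((r : ℝ) * n + 1) * (‖y‖ * ‖y‖ ^ (n - 1)) := by ring
      _ ≤ 2 ^ n * (n / (r * n + 1) * ‖y‖ ^ (n - 1)) := h7
      _ = _ := by ring
  have h11 := le_of_mul_le_mul_right h10 h9
  linarith

lemma mult_bound {n r : ℕ} (hn : 1 ≤ n) {ξ : ℂ} (hξ : (fam n r).eval ξ = ξ) :
    ‖(fam n r).derivative.eval ξ‖ ≤ (1 + n * 2 ^ n) ^ n := by
  rw [fam_derivative]
  simp only [eval_pow, eval_sub, eval_one, eval_X, norm_pow]
  have h1 : ‖(1 : ℂ) - ξ ^ r‖ ≤ 1 + ‖ξ ^ r‖ := by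
    simpa using norm_sub_le (1 : ℂ) (ξ ^ r)
  have hy : ‖ξ ^ r‖ ≤ n * 2 ^ n := by
    by_cases hξ0 : ξ = 0
    · subst hξ0
      have h1 : (1 : ℝ) ≤ n := by exact_mod_cast hn
      have h2 : (1 : ℝ) ≤ 2 ^ n := one_le_pow₀ (by norm_num)
      rcases Nat.eq_zero_or_pos r with hr | hr
      · subst hr
        simp only [pow_zero, norm_one]
        nlinarith
      · rw [zero_pow (by omega), norm_zero]; positivity
    · rw [fam_eval] at hξ
      have h2 : ∑ j ∈ Finset.Icc 1 n,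
          (((n.choose j : ℕ) : ℂ) * (-1) ^ j / ((r * j + 1 : ℕ) : ℂ)) * (ξ ^ (r * j + 1)) = 0 := by
        simpa using hξ
      refine root_bound (r := r) hn ?_
      have h3 : ξ * ∑ j ∈ Finset.Icc 1 n,
          (((n.choose j : ℕ) : ℂ) * (-1) ^ j / ((r * j + 1 : ℕ) : ℂ)) * (ξ ^ r) ^ j = 0 := by
        rw [Finset.mul_sum, ← h2]
        refine Finset.sum_congr rfl fun j _ => ?_
        rw [← pow_mul, pow_succ]; ring
      exact (mul_eq_zero.1 h3).resolve_left hξ0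
  calc ‖(1 : ℂ) - ξ ^ r‖ ^ n ≤ (1 + ‖ξ ^ r‖) ^ n := by gcongr
    _ ≤ (1 + n * 2 ^ n) ^ n := by gcongr

/-- For every `δ > 0` there is a bound `M` such that there are polynomials `p` of arbitrarily
large degree with fewer than `δ deg p` critical values all of whose fixed points have multipliers
of modulus at most `M`. -/
theorem result :
    ∀ δ : ℝ, 0 < δ → ∃ M : ℝ, ∀ D : ℕ, ∃ p : ℂ[X], D ≤ p.natDegree ∧ 2 ≤ p.natDegree ∧
      (cv p : ℝ) < δ * p.natDegree ∧ maxMult p ≤ M := by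
  intro δ hδ
  obtain ⟨m, hm⟩ := exists_nat_gt (1 / δ)
  obtain ⟨n, hn1, hnδ⟩ : ∃ n : ℕ, 1 ≤ n ∧ 1 ≤ δ * n := by
    refine ⟨m + 1, by omega, ?_⟩
    rw [div_lt_iff₀ hδ] at hm
    push_cast
    nlinarith
  refine ⟨(1 + n * 2 ^ n) ^ n, fun D => ?_⟩
  have hr : 1 ≤ D + 1 := by omega
  refine ⟨fam n (D + 1), ?_, ?_, ?_, ?_⟩
  · rw [fam_natDegree hr]
    nlinarith
  · rw [fam_natDegree hr]
    have : 1 * 1 ≤ (D + 1) * n := Nat.mul_le_mul hr hn1
    omega
  · rw [fam_natDegree hr]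
    have h1 : (cv (fam n (D + 1)) : ℝ) ≤ ((D + 1 : ℕ) : ℝ) := by exact_mod_cast cv_fam_le hr
    have hD : (0 : ℝ) < ((D + 1 : ℕ) : ℝ) := by positivity
    push_cast at h1 hD ⊢
    nlinarith
  · refine Real.sSup_le ?_ (by positivity)
    rintro _ ⟨ξ, hξ, rfl⟩
    exact mult_bound hn1 hξ

end Pool.Agent.Results.MP_b61545_an.BoundedMultipliers
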